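import Pool.Agent.T9h29.HC.Spec
import Pool.Agent.Helper276.VdC

/-!
# Project HC, piece J: the oscillating integrals
-/

set_option autoImplicit false

namespace Pool.Agent.T9h22.HC

open Complex Filter Topology MeasureTheory Set
open Pool.Agent.R304.GR (vt psi)
open Pool.Agent.T9h29.HC

theorem tj : S_TH → S_J := by
  rintro ⟨c, hc, q, hq, hqd⟩
  obtain ⟨C0, hC0, hpsi⟩ := Pool.Agent.R304.GR.psi_bound
  have hsc : 0 < √c := Real.sqrt_pos.mpr hc
  have h8 : 0 < 8 / √c := by positivity
  refine ⟨8 / √c + C0 + 4, by positivity, fun a x T μ ha hax hxT => ?_⟩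
  have hT : 0 < T := by linarith
  have h1 : ∀ t ∈ Icc a x, HasDerivAt (fun t => vt t - μ * t) (psi t - μ) t := fun t ht => by
    have h := (Pool.Agent.R304.GR.vt_deriv t).sub ((hasDerivAt_id t).const_mul μ)
    rw [mul_one] at h
    exact h
  have h2 : ∀ t ∈ Icc a x, HasDerivAt (fun t => psi t - μ) (q t) t := fun t ht =>
    (hqd t (ha.trans ht.1)).1.sub_const μ
  have hqc : ContinuousOn q (Icc a x) := hq.mono (fun t ht => ha.trans ht.1)
  have hcT : ∀ t ∈ Icc a x, c / T ≤ q t := fun t ht =>
    (div_le_div_of_nonneg_left hc.le (by linarith [ht.1]) (ht.2.trans hxT)).trans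
      (hqd t (ha.trans ht.1)).2
  constructor
  · have h3 := Pool.Agent.Helper276.VdC.second_test_pos hax (by positivity : 0 < c / T) h1 h2 hqc
      hcT
    refine h3.trans ?_
    rw [Real.sqrt_div hc.le]
    have hsT : 0 < √T := Real.sqrt_pos.mpr hT
    have h4 : 8 / (√c / √T) = 8 / √c * √T := by field_simp
    rw [h4]
    apply mul_le_mul_of_nonneg_right _ hsT.le
    linarith
  · intro hμ
    have h3 := Pool.Agent.Helper276.VdC.first_test hax one_pos h1 h2 hqc
      (fun t ht => le_trans (by positivity) (hcT t ht)) (by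
        intro t ht
        have h4 := (abs_le.mp (hpsi t (ha.trans ht.1))).2
        have h5 : Real.log t ≤ Real.log T :=
          Real.log_le_log (by linarith [ht.1]) (ht.2.trans hxT)
        rw [abs_sub_comm]
        refine le_trans ?_ (le_abs_self _)
        linarith)
    refine h3.trans ?_
    linarith

end Pool.Agent.T9h22.HC
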