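import Pool.Agent.T9h29.HC.Spec
import Pool.Agent.N879.PZ.Afx
import Pool.Agent.N879.PZ.Crd
import Pool.Agent.N879.PZ.Lt
import Pool.Agent.N879.PZ.M4l

/-!
# Project HC, piece SMALL: the small `t`
-/

set_option autoImplicit false

namespace Pool.Agent.T9h22.HC

open Complex Filter Topology MeasureTheory Set
open Pool.Agent.R304.SG (Z)
open Pool.Agent.Y969.GP (ff)
open Pool.Agent.N879.PZ
open Pool.Agent.T9h29.HC

theorem phase_norm (t : ℝ) : ‖Pool.Agent.R304.SG.phase t‖ = 1 := by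
  unfold Pool.Agent.R304.SG.phase
  have h1 : ‖Complex.Gamma (1 / 4 + I * t / 2)‖ ≠ 0 :=
    norm_ne_zero_iff.mpr (Pool.Agent.R304.SG.gamma_ne t)
  rw [norm_mul, norm_div, Complex.norm_real, norm_norm, div_self h1, one_mul, Complex.norm_exp]
  simp

theorem Z_norm (t : ℝ) : ‖Z t‖ ^ 2 = ff t := by
  unfold Z ff
  rw [norm_mul, phase_norm, one_mul]

theorem ff_cont : Continuous ff := by
  have h : ff = fun t => ‖Z t‖ ^ 2 := funext fun t => (Z_norm t).symm
  rw [h]
  exact Pool.Agent.R304.SG.Z_cont.norm.pow 2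

theorem ff_nonneg (t : ℝ) : 0 ≤ ff t := by
  rw [← Z_norm]
  positivity

theorem small0 (h : S_M4L) : S_SMALL := by
  obtain ⟨C, A, hC, hM⟩ := h
  refine ⟨1 + 4 * C * 2 ^ A, A, by positivity, fun T c hT hc hcX => ?_⟩
  have hT0 : (0 : ℝ) < T := by linarith
  have hT1 : (1 : ℝ) ≤ T := by linarith
  set X : ℝ := T ^ (7 / 8 : ℝ) with hXdef
  have hX1 : (3 / 2 : ℝ) ≤ X := by
    have h1 : T ^ (1 / 2 : ℝ) ≤ X := Real.rpow_le_rpow_of_exponent_le hT1 (by norm_num)
    have h2 : (3 / 2 : ℝ) ≤ T ^ (1 / 2 : ℝ) := by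
      rw [← Real.sqrt_eq_rpow]
      apply Real.le_sqrt_of_sq_le
      norm_num
      linarith
    exact h2.trans h1
  have hXT : X ≤ T := by
    have h1 : T ^ (7 / 8 : ℝ) ≤ T ^ (1 : ℝ) := Real.rpow_le_rpow_of_exponent_le hT1 (by norm_num)
    rwa [Real.rpow_one] at h1
  have hlog : 1 ≤ Real.log T := by
    rw [Real.le_log_iff_exp_le hT0]
    have := Real.exp_one_lt_d9
    linarith
  have hcf : Continuous fun u : ℝ => ff u ^ 2 := ff_cont.pow 2
  -- the pointwise bound
  have hpt : ∀ t : ℝ, ‖Z t * (ff (t + c) : ℂ)‖ ≤ 1 + ff t ^ 2 + ff (t + c) ^ 2 := by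
    intro t
    rw [norm_mul, Complex.norm_real, Real.norm_of_nonneg (ff_nonneg _), ← Z_norm t]
    nlinarith [sq_nonneg (‖Z t‖ - ff (t + c)), sq_nonneg (‖Z t‖ ^ 2 - 1), sq_nonneg (ff (t + c)),
      sq_nonneg (‖Z t‖ ^ 2)]
  have hi1 : ∀ a b : ℝ, IntervalIntegrable (fun u => ff u ^ 2) volume a b :=
    fun a b => hcf.intervalIntegrable a b
  have hcf2 : Continuous fun u : ℝ => ff (u + c) ^ 2 :=
    hcf.comp (continuous_id.add continuous_const)
  have h1 : ‖∫ t in (0 : ℝ)..X, Z t * (ff (t + c) : ℂ)‖ ≤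
      ∫ t in (0 : ℝ)..X, (1 + ff t ^ 2 + ff (t + c) ^ 2) := by
    apply intervalIntegral.norm_integral_le_of_norm_le (by linarith)
    · exact Filter.Eventually.of_forall fun t _ => hpt t
    · exact ((continuous_const.add hcf).add hcf2).intervalIntegrable _ _
  have h2 : ∫ t in (0 : ℝ)..X, (1 + ff t ^ 2 + ff (t + c) ^ 2) =
      X + (∫ t in (0 : ℝ)..X, ff t ^ 2) + ∫ t in c..(X + c), ff t ^ 2 := by
    rw [intervalIntegral.integral_add, intervalIntegral.integral_add,
      intervalIntegral.integral_comp_add_right (fun u => ff u ^ 2) c]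
    · simp
    · exact (continuous_const).intervalIntegrable _ _
    · exact hi1 _ _
    · exact ((continuous_const).add hcf).intervalIntegrable _ _
    · exact hcf2.intervalIntegrable _ _
  have h3 : ∫ t in (0 : ℝ)..X, ff t ^ 2 ≤ ∫ t in (0 : ℝ)..(2 * X), ff t ^ 2 := by
    apply intervalIntegral.integral_mono_interval le_rfl (by linarith) (by linarith)
    · exact Filter.Eventually.of_forall fun t => by positivity
    · exact hi1 _ _
  have h4 : ∫ t in c..(X + c), ff t ^ 2 ≤ ∫ t in (0 : ℝ)..(2 * X), ff t ^ 2 := by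
    apply intervalIntegral.integral_mono_interval hc (by linarith) (by linarith)
    · exact Filter.Eventually.of_forall fun t => by positivity
    · exact hi1 _ _
  have h5 := hM (2 * X) (by linarith)
  have h6 : Real.log (2 * X) ≤ 2 * Real.log T := by
    have h7 : Real.log (2 * X) ≤ Real.log (T ^ 2) := by
      apply Real.log_le_log (by linarith)
      nlinarith
    rw [Real.log_pow] at h7
    exact_mod_cast h7
  have h7 : 0 ≤ Real.log (2 * X) := Real.log_nonneg (by linarith)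
  have h8 : Real.log (2 * X) ^ A ≤ 2 ^ A * Real.log T ^ A := by
    rw [← mul_pow]
    exact pow_le_pow_left₀ h7 h6 A
  have h9 : 1 ≤ Real.log T ^ A := one_le_pow₀ hlog
  have hX0 : 0 ≤ X := by linarith
  calc ‖∫ t in (0 : ℝ)..X, Z t * (ff (t + c) : ℂ)‖
      ≤ X + 2 * (C * (2 * X) * Real.log (2 * X) ^ A) := by
        rw [h2] at h1
        linarith
    _ ≤ X * Real.log T ^ A + 2 * (C * (2 * X) * (2 ^ A * Real.log T ^ A)) := by
        gcongr
        exact le_mul_of_one_le_right hX0 h9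
    _ = (1 + 4 * C * 2 ^ A) * X * Real.log T ^ A := by ring

theorem small : S_SMALL := small0 (t_M4L t_AFX t_CRD t_LT)

end Pool.Agent.T9h22.HC
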